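import Pool.Agent.U536.CF.Sc
import Pool.Agent.Results.MP_9056e9_nt.DigitsOfPowersOfE

/-!
# The digits of the powers `e^n` for all `n` near integers with a large common factor with a value of a multiplicative function

Let `f` be a positive multiplicative function of at most polynomial growth such that `f p ≤ M p` for the large primes `p`,
with different values at different large primes; for example Euler's function or the sum of the divisors. Let `G` have
steps bounded below by a positive constant and growth at most `v^d`, for example `α v^d`. Let `b' < 1` and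
`0 ≤ c < 2 b' - 1`. For all `m ≤ N` but `N exp (-(log N)^c)`, for EVERY integer `w ≥ exp ((log N)^b')` with
`gcd(w, f(m)) ≥ w^ρ` and EVERY integer `n` with `|n - G w| ≤ w ^ κ`, every block of at least `δ n` consecutive digits of `e^n` in
base `b`, between the leading digit and the `n / δ`-th digit after the point, has linear complexity at least `c(δ)` times its
length; the same for `a e^n + P(n)`, with an arbitrary real number `a`, `e^(-n) ≤ |a| ≤ e^n`, and an arbitrary real polynomial `P`
of degree at most `D`; the bound `N ≥ N₀` does not depend on `a` and `P`. Here `κ ≥ 0` and `d (1 - η) + κ < ρ ≤ 1`,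
`η = δ^4 / (209715200 2^D)`. The integers `w` include all large divisors of `f(m)` and their multiples by small integers; for
Euler's function, the orders of the elements of the group of units modulo `m`.

Proof. Write `m = k u` with `u` squarefree and composed of primes larger than `N^(1/J)`, `J = (log N)^a`, and
`k ≤ exp (4 (log N)^a)`; this is possible for all `m ≤ N` but very few. If `v ∣ f(k) f(u)`, then `v = g v'` with `g ∣ f(k)` and
`v' ∣ ∏ f(p)`, and the number of such `u ≤ N / k` is at most `N / (k v')` times `(log N)^O(J)` times the number `τ_J(v')` of the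
ordered factorizations of `v'` into `J` factors. The inequality `τ_J^q ≤ τ_K` for `K ≥ J^q` and Hölder's inequality bound
the sum over the sparse set of the exceptional `v`. The count of the exceptional `n ≤ N` is the theorem
`DigitsOfPowersOfE` of this page in the starting library; the large divisors of the values of multiplicative functions form a
set of density zero and are taken with very large multiplicities, and so the theorem does not follow from that count alone.
-/

set_option autoImplicit false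

namespace Pool.Agent.Results.MP_9056e9_nt.CommonFactors

open Pool.Agent.N733.TG (LM Expanding lm_totient lm_sigma expanding_pow)
open Pool.Agent.U536.CF (Common common_scale_nat common_of_dvd common_order)
open Pool.Agent.Results.MP_9056e9_nt.DigitsOfPowersOfE (digit complexity)

/-- Every block of at least `δ n` consecutive digits of `a e^n + P(n)` in base `b`, at places between that of the leading digit of
`a e^n` and `n / δ`, has linear complexity larger than `δ² / (200000 2^D)` times its length. -/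
def ComplexDigits (D b : ℕ) (δ a : ℝ) (P : Polynomial ℝ) (n : ℕ) : Prop :=
  ∀ (u : ℤ) (L : ℕ), 1 ≤ |a| * Real.exp n * (b : ℝ) ^ u → δ * n ≤ L → (u : ℝ) + L ≤ n / δ →
    δ ^ 2 / (200000 * 2 ^ D) * L < (complexity b (a * Real.exp n + P.eval (n : ℝ)) u L : ℝ)

/-- **The digits of the powers `e^n` for all `n` near integers with a large common factor with a value of a multiplicative
function.** Let `D` be a natural number, `b ≥ 2` a base and `0 < δ ≤ 1`. Let `f` be multiplicative and positive, of at most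
polynomial growth, with `f p ≤ M p` at the large primes, and injective there. Let `G` have steps `≥ a > 0` and growth at most
`v^d`. Let `b' < 1` and `0 ≤ c < 2 b' - 1`, `κ ≥ 0` and `d (1 - δ^4 / (209715200 2^D)) + κ < ρ ≤ 1`. For all large `N`, for all real
numbers `a` and real polynomials `P` of degree at most `D`, for all `m ≤ N` but `N exp (-(log N)^c)`, for EVERY integer
`w ≥ exp ((log N)^b')` with `gcd(w, f(m)) ≥ w^ρ` and EVERY integer `n ≥ 1` with `|n - G w| ≤ w ^ κ` and `e^(-n) ≤ |a| ≤ e^n` (for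
instance `a = 1`): every block of at least `δ n` consecutive digits of `a e^n + P(n)` in base `b`, at places between that of the
leading digit of `a e^n` and `n / δ`, has linear complexity larger than `δ² / (200000 2^D)` times its length.
All divisors `w ≥ exp ((log N)^b)` of `f(m)` are such integers `w`, and for Euler's function the orders
`≥ exp ((log N)^b)` of the units modulo `m`. Euler's function and the sum of the divisors are examples of `f`, and `α v^d` with
`α > 0`, `d ≥ 1` is an example of `G`. -/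
theorem result :
    (∀ (D b : ℕ), 2 ≤ b → ∀ δ : ℝ, 0 < δ → δ ≤ 1 → ∀ f : ℕ → ℕ, LM f → ∀ (G : ℕ → ℝ) (d : ℝ), Expanding G d →
      ∀ κ ρ b' c : ℝ, 0 ≤ κ → d * (1 - δ ^ 4 / (209715200 * 2 ^ D)) + κ < ρ → ρ ≤ 1 → b' < 1 → 0 ≤ c → c < 2 * b' - 1 →
      ∃ N₀ : ℕ, ∀ N : ℕ, N₀ ≤ N → ∀ (a : ℝ) (P : Polynomial ℝ), P.natDegree ≤ D →
        ({m : ℕ | 1 ≤ m ∧ m ≤ N ∧ ¬ ∀ w : ℕ, Common f b' ρ N m w → ∀ n : ℕ, 1 ≤ n → |(n : ℝ) - G w| ≤ (w : ℝ) ^ κ →
          Real.exp (-(n : ℝ)) ≤ |a| → |a| ≤ Real.exp n → ComplexDigits D b δ a P n}.ncard : ℝ) ≤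
          N * Real.exp (-(Real.log N ^ c))) ∧
    (LM Nat.totient ∧ LM (fun m => ∑ d ∈ m.divisors, d)) ∧
    (∀ α d : ℝ, 0 < α → 1 ≤ d → Expanding (fun v => α * (v : ℝ) ^ d) d) ∧
    (∀ (f : ℕ → ℕ) (b ρ : ℝ) (N m w : ℕ), ρ ≤ 1 → Real.exp (Real.log N ^ b) ≤ (w : ℝ) → w ∣ f m → Common f b ρ N m w) ∧
    ∀ (b ρ : ℝ) (N m : ℕ), ρ ≤ 1 → ∀ x : (ZMod m)ˣ, Real.exp (Real.log N ^ b) ≤ (orderOf x : ℝ) →
      Common Nat.totient b ρ N m (orderOf x) := by
  refine ⟨?_, ⟨lm_totient, lm_sigma⟩, fun α d hα hd => expanding_pow hα hd, fun f b ρ N m w hρ hw hd => common_of_dvd hρ hw hd,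
    fun b ρ N m hρ x hx => common_order hρ x hx⟩
  intro D b hb δ hδ hδ1 f hf G d hG κ ρ b' c hκ h1 hρ hb' hc hcb
  obtain ⟨C, hC, h⟩ := DigitsOfPowersOfE.result D b hb (δ / 2) (by linarith) (by linarith)
  have h2D : (1 : ℝ) ≤ 2 ^ D := one_le_pow₀ (by norm_num)
  have e1 : (δ / 2) ^ 4 / (13107200 * 2 ^ D) = δ ^ 4 / (209715200 * 2 ^ D) := by
    field_simp
    ring
  have e2 : (δ / 2) ^ 2 / (50000 * 2 ^ D) = δ ^ 2 / (200000 * 2 ^ D) := by
    field_simp
    ring
  have hδ4 : δ ^ 4 / (209715200 * 2 ^ D) < 1 := by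
    rw [div_lt_one (by positivity)]
    have : δ ^ 4 ≤ 1 := pow_le_one₀ hδ.le hδ1
    nlinarith
  obtain ⟨N₀, hN₀⟩ := common_scale_nat (s := 1 - δ ^ 4 / (209715200 * 2 ^ D)) (C := C) (by linarith) 1 0 hf hG hκ h1 hρ hb' hc hcb
  refine ⟨N₀, fun N hN a P hP => ?_⟩
  have key := hN₀ (fun N n => Real.exp (-(N : ℝ)) ≤ |a| ∧ |a| ≤ Real.exp N ∧ ∃ (u : ℤ) (L : ℕ),
        1 ≤ |a| * Real.exp n * (b : ℝ) ^ u ∧ δ / 2 * N ≤ L ∧ (u : ℝ) + L ≤ N / (δ / 2) ∧
        (complexity b (a * Real.exp n + P.eval (n : ℝ)) u L : ℝ) ≤ (δ / 2) ^ 2 / (50000 * 2 ^ D) * L)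
    (fun n => Real.exp (-(n : ℝ)) ≤ |a| ∧ |a| ≤ Real.exp n ∧ ¬ ComplexDigits D b δ a P n) (fun M hM => ?_)
    (fun n M hn _ hnM hM2 hQ => ?_) N hN
  · refine le_trans (le_of_eq ?_) key
    congr 2
    ext m
    simp only [Set.mem_ofPred_eq]
    push Not
    rfl
  · by_cases ha : Real.exp (-(M : ℝ)) ≤ |a| ∧ |a| ≤ Real.exp M
    · have h3 := h a P M hM ha.1 ha.2 hP
      rw [e1] at h3
      refine le_trans (le_of_eq ?_) h3
      congr 2
      ext n
      simp only [Set.mem_ofPred_eq]
      constructor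
      · rintro ⟨g1, g2, _, _, g3⟩
        exact ⟨g1, g2, g3⟩
      · rintro ⟨g1, g2, g3⟩
        exact ⟨g1, g2, ha.1, ha.2, g3⟩
    · have h3 : {n : ℕ | 1 ≤ n ∧ n ≤ M ∧ Real.exp (-(M : ℝ)) ≤ |a| ∧ |a| ≤ Real.exp M ∧ ∃ (u : ℤ) (L : ℕ),
        1 ≤ |a| * Real.exp n * (b : ℝ) ^ u ∧ δ / 2 * M ≤ L ∧ (u : ℝ) + L ≤ M / (δ / 2) ∧
        (complexity b (a * Real.exp n + P.eval (n : ℝ)) u L : ℝ) ≤ (δ / 2) ^ 2 / (50000 * 2 ^ D) * L} = ∅ := by
        apply Set.eq_empty_of_forall_notMem
        rintro n ⟨_, _, g1, g2, _⟩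
        exact ha ⟨g1, g2⟩
      rw [h3, Set.ncard_empty, Nat.cast_zero]
      positivity
  · obtain ⟨g1, g2, g3⟩ := hQ
    have hnM' : (n : ℝ) ≤ M := by exact_mod_cast hnM
    have hM2' : (M : ℝ) ≤ 2 * n := by exact_mod_cast hM2.le
    refine ⟨(Real.exp_le_exp.2 (by linarith)).trans g1, g2.trans (Real.exp_le_exp.2 hnM'), ?_⟩
    unfold ComplexDigits at g3
    push Not at g3
    obtain ⟨u, L, k1, k2, k3, k4⟩ := g3
    refine ⟨u, L, k1, ?_, ?_, ?_⟩
    · nlinarith
    · refine k3.trans ?_
      have : (M : ℝ) / (δ / 2) = 2 * M / δ := by field_simp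
      rw [this]
      apply div_le_div_of_nonneg_right _ hδ.le
      linarith
    · rw [e2]
      exact k4

end Pool.Agent.Results.MP_9056e9_nt.CommonFactors
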