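import Pool.Agent.U349.OB.Complete

/-!
# Complete uniform distribution of `x λ ^ n` is decided by one interval

For real numbers `λ`, `x`, in particular `λ = e, π` and `x = 1`: all tuples
`(x λ ^ n, …, x λ ^ (n + d - 1))` are equidistributed modulo 1 if and only if for every nonzero
integer polynomial `P` half of the numbers `x P(λ) λ ^ n` lie in `[1/4, 3/4)` modulo 1.
-/

set_option autoImplicit false

namespace Pool.Agent.Results.MP_9056e9_nt.CompleteDistribution

open Polynomial
open Pool.Agent.U349.OB (BoxEqui EquiI EvHalf EvThird)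

/-- the sequence `(x l ^ n)` is completely uniformly distributed modulo 1: the tuples
`(x l ^ n, …, x l ^ (n + d - 1))`, `n ≥ 1`, are equidistributed modulo 1 for every `d` -/
def Complete (l x : ℝ) : Prop := ∀ d : ℕ, BoxEqui (fun n (j : Fin d) => x * l ^ (n + (j : ℕ)))

theorem result :
    (∀ l x : ℝ, List.TFAE [Complete l x,
      ∀ P : ℤ[X], P ≠ 0 → EquiI (fun n => x * aeval l P * l ^ n),
      ∀ P : ℤ[X], P ≠ 0 → EvHalf (fun n => x * aeval l P * l ^ n),
      ∀ P : ℤ[X], P ≠ 0 → EvThird (fun n => x * aeval l P * l ^ n)]) ∧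
    (∀ l x : ℝ, (∀ k a : ℕ, 1 ≤ k → 1 ≤ a → EvHalf (fun n => k * (x * (l ^ a - 1)) * l ^ n)) →
      EquiI (fun n => x * l ^ n)) ∧
    (∀ l x : ℝ, (∀ k a : ℕ, 1 ≤ k → 1 ≤ a → EvThird (fun n => k * (x * (l ^ a - 1)) * l ^ n)) →
      EquiI (fun n => x * l ^ n)) :=
  ⟨fun l x => Pool.Agent.U349.OB.complete_tfae l x,
    fun l x h => Pool.Agent.U349.OB.binomial l x (Or.inl h),
    fun l x h => Pool.Agent.U349.OB.binomial l x (Or.inr h)⟩

end Pool.Agent.Results.MP_9056e9_nt.CompleteDistribution
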