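import Mathlib
import Pool.Agent.U349.OB.Seq
import Pool.Agent.U349.OB.Rat

/-!
# A one-bit criterion for uniform distribution, and the powers of `e` and `π`

A real sequence `u` is equidistributed modulo 1 if and only if for every integer `k ≥ 1` half of the
numbers `k u(n)` lie in `[0, 1/2)` and half of them lie in `[1/4, 3/4)` modulo 1.  The criterion has
a uniform finite form; neither of the two conditions can be omitted.
-/

set_option autoImplicit false

namespace Pool.Agent.Results.MP_9056e9_nt.OneBitWeyl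

open Finset Filter Topology
open Pool.Agent.U349.OB

/-- `u` is equidistributed modulo 1 -/
def Equi (u : ℕ → ℝ) : Prop :=
  ∀ a b : ℝ, 0 ≤ a → a < b → b ≤ 1 → Tendsto (fun N : ℕ =>
    (((Icc 1 N).filter (fun n : ℕ => a ≤ Int.fract (u n) ∧ Int.fract (u n) < b)).card : ℝ) / (N : ℝ))
    atTop (𝓝 (b - a))

/-- half of the numbers `k u(n)` lie in `[0, 1/2)` modulo 1 -/
def HalfA (u : ℕ → ℝ) (k : ℕ) : Prop :=
  Tendsto (fun N : ℕ => (((Icc 1 N).filter (fun n : ℕ => Int.fract (k * u n) < 1 / 2)).card : ℝ) /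
    (N : ℝ)) atTop (𝓝 (1 / 2))

/-- half of the numbers `k u(n)` lie in `[1/4, 3/4)` modulo 1 -/
def HalfB (u : ℕ → ℝ) (k : ℕ) : Prop :=
  Tendsto (fun N : ℕ => (((Icc 1 N).filter (fun n : ℕ => 1 / 4 ≤ Int.fract (k * u n) ∧
    Int.fract (k * u n) < 3 / 4)).card : ℝ) / (N : ℝ)) atTop (𝓝 (1 / 2))

lemma equi_weyl (u : ℕ → ℝ) (h : Equi u) : Weyl u := by
  refine weyl_of_equi fun α β h0 h1 h2 => ?_
  rw [freq_iff]
  exact h α β h0 h1 h2

lemma weyl_equi (u : ℕ → ℝ) (h : Weyl u) : Equi u := by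
  intro α β h0 h1 h2
  rw [← freq_iff (fun N : ℕ => (((Icc 1 N).filter (fun n : ℕ => α ≤ Int.fract (u n) ∧
    Int.fract (u n) < β)).card : ℝ))]
  exact h.interval α β h0 h1 h2

lemma halfA_of (u : ℕ → ℝ) (h : Weyl u) (k : ℕ) (hk : 1 ≤ k) : HalfA u k := by
  have h1 := (h.mul k hk).interval 0 (1 / 2) le_rfl (by norm_num) (by norm_num)
  rw [sub_zero, freq_iff] at h1
  have h2 : ∀ t : ℝ, (0 ≤ Int.fract t ∧ Int.fract t < 1 / 2) ↔ Int.fract t < 1 / 2 :=
    fun t => ⟨fun h => h.2, fun h => ⟨Int.fract_nonneg t, h⟩⟩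
  simp only [h2] at h1
  exact h1

lemma halfB_of (u : ℕ → ℝ) (h : Weyl u) (k : ℕ) (hk : 1 ≤ k) : HalfB u k := by
  have h1 := (h.mul k hk).interval (1 / 4) (3 / 4) (by norm_num) (by norm_num) (by norm_num)
  have h2 : (3 / 4 - 1 / 4 : ℝ) = 1 / 2 := by norm_num
  rw [h2, freq_iff] at h1
  exact h1

theorem criterion (u : ℕ → ℝ) : Equi u ↔ ∀ k : ℕ, 1 ≤ k → HalfA u k ∧ HalfB u k := by
  constructor
  · intro h k hk
    exact ⟨halfA_of u (equi_weyl u h) k hk, halfB_of u (equi_weyl u h) k hk⟩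
  · intro h
    apply weyl_equi
    refine weyl_of_freq fun k hk => ?_
    rw [freq_iff, freq_iff]
    exact h k hk

lemma image_succ (N : ℕ) : Icc 1 N = (range N).image (fun i => i + 1) := by
  ext i
  rw [mem_Icc, mem_image]
  constructor
  · rintro ⟨h1, h2⟩
    exact ⟨i - 1, by rw [mem_range]; omega, by omega⟩
  · rintro ⟨j, hj, rfl⟩
    rw [mem_range] at hj; omega

/-- a symmetric sequence -/
noncomputable def u₁ (n : ℕ) : ℝ := if n % 2 = 0 then √2 else -√2

lemma fract_neg_irr {t : ℝ} (ht : Irrational t) : Int.fract (-t) = 1 - Int.fract t := by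
  apply Int.fract_neg
  intro h
  apply ht
  rw [Int.fract_eq_iff] at h
  obtain ⟨_, _, z, hz⟩ := h
  exact ⟨(z : ℚ), by push_cast; linarith⟩

lemma fract_ne {t : ℝ} (ht : Irrational t) (q : ℚ) : Int.fract t ≠ q := by
  intro h
  apply ht
  refine ⟨q + ⌊t⌋, ?_⟩
  have := Int.fract_add_floor t
  push_cast
  rw [← h]; exact this

lemma u₁_halfA (k : ℕ) (hk : 1 ≤ k) : HalfA u₁ k := by
  unfold HalfA
  rw [← freq_iff (fun N : ℕ => (((Icc 1 N).filter (fun n : ℕ => Int.fract (k * u₁ n) < 1 / 2)).card : ℝ))]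
  have hcard : ∀ N : ℕ, ((Icc 1 N).filter (fun n : ℕ => Int.fract (k * u₁ n) < 1 / 2)).card =
      #{i ∈ range N | Int.fract (k * u₁ (i + 1)) < 1 / 2} := by
    intro N
    rw [image_succ, filter_image, card_image_of_injective _ (fun a b h => by
      have : a + 1 = b + 1 := h
      omega)]
  simp only [hcard]
  have h1 := freq_periodic (fun i => Int.fract (k * u₁ (i + 1)) < 1 / 2) 2 (by norm_num) (by
    intro i
    have : u₁ (i + 2 + 1) = u₁ (i + 1) := by
      unfold u₁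
      have : (i + 2 + 1) % 2 = (i + 1) % 2 := by omega
      rw [this]
    rw [this])
  have hirr : Irrational ((k : ℝ) * √2) := irrational_sqrt_two.natCast_mul (by omega)
  have hne := fract_ne hirr (1 / 2)
  push_cast at hne
  have h2 : #{i ∈ range 2 | Int.fract (k * u₁ (i + 1)) < 1 / 2} = 1 := by
    have e0 : Int.fract ((k : ℝ) * u₁ (0 + 1)) = 1 - Int.fract ((k : ℝ) * √2) := by
      unfold u₁
      simp only [zero_add]
      norm_num
      rw [fract_neg_irr hirr]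
    have e1 : Int.fract ((k : ℝ) * u₁ (1 + 1)) = Int.fract ((k : ℝ) * √2) := by
      unfold u₁
      norm_num
    have hr : range 2 = {0, 1} := by decide
    rw [hr, filter_insert, filter_singleton, e0, e1]
    rcases lt_or_gt_of_ne hne with h | h
    · rw [if_neg (by linarith), if_pos h]; simp
    · rw [if_pos (by linarith), if_neg (by linarith)]; simp
  rw [h2] at h1
  simpa using h1

lemma u₁_not : ¬ Equi u₁ := by
  intro h
  have h1 := h 0 (1 / 4) le_rfl (by norm_num) (by norm_num)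
  have h2 : ∀ N : ℕ, ((Icc 1 N).filter (fun n : ℕ => 0 ≤ Int.fract (u₁ n) ∧
      Int.fract (u₁ n) < 1 / 4)).card = 0 := by
    intro N
    rw [card_eq_zero, filter_eq_empty_iff]
    intro n _ hn
    have ha : (1.4 : ℝ) < √2 := by
      rw [Real.lt_sqrt (by norm_num)]; norm_num
    have hb : √2 < (1.5 : ℝ) := by
      rw [Real.sqrt_lt' (by norm_num)]; norm_num
    have hf : Int.fract (√2) = √2 - 1 := by
      rw [Int.fract_eq_iff]
      exact ⟨by linarith, by linarith, 1, by push_cast; ring⟩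
    have hn2 := hn.2
    unfold u₁ at hn2
    by_cases h0 : n % 2 = 0
    · rw [if_pos h0, hf] at hn2
      linarith
    · rw [if_neg h0, fract_neg_irr irrational_sqrt_two, hf] at hn2
      linarith
  simp only [h2] at h1
  have h3 : Tendsto (fun N : ℕ => ((0 : ℕ) : ℝ) / (N : ℝ)) atTop (𝓝 0) := by
    simp
  have := tendsto_nhds_unique h1 h3
  norm_num at this

/-- a folded sequence -/
noncomputable def u₂ (n : ℕ) : ℝ :=
  if Int.fract (n * √2) < 1 / 2 then Int.fract (n * √2) else 1 - Int.fract (n * √2)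

lemma u₂_halfB (k : ℕ) (hk : 1 ≤ k) : HalfB u₂ k := by
  have h1 := halfB_of _ (weyl_irr √2 irrational_sqrt_two) k hk
  unfold HalfB at h1 ⊢
  have h2 : ∀ N : ℕ, (Icc 1 N).filter (fun n : ℕ => 1 / 4 ≤ Int.fract (k * u₂ n) ∧
      Int.fract (k * u₂ n) < 3 / 4) = (Icc 1 N).filter (fun n : ℕ => 1 / 4 ≤ Int.fract (k * (n * √2)) ∧
      Int.fract (k * (n * √2)) < 3 / 4) := by
    intro N
    refine filter_congr fun n hn => ?_
    rw [mem_Icc] at hn
    have hirr : Irrational ((k : ℝ) * (n * √2)) :=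
      (irrational_sqrt_two.natCast_mul (by omega : n ≠ 0)).natCast_mul (by omega)
    unfold u₂
    by_cases h : Int.fract ((n : ℝ) * √2) < 1 / 2
    · rw [if_pos h]
      have : (k : ℝ) * Int.fract ((n : ℝ) * √2) = (k : ℝ) * (n * √2) - ((k * ⌊(n : ℝ) * √2⌋ : ℤ) : ℝ) := by
        rw [Int.fract]; push_cast; ring
      rw [this, Int.fract_sub_intCast]
    · rw [if_neg h]
      have : (k : ℝ) * (1 - Int.fract ((n : ℝ) * √2)) = -((k : ℝ) * (n * √2)) +
          ((k * (⌊(n : ℝ) * √2⌋ + 1) : ℤ) : ℝ) := by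
        rw [Int.fract]; push_cast; ring
      rw [this, Int.fract_add_intCast, fract_neg_irr hirr]
      have n1 := fract_ne hirr (1 / 4)
      have n2 := fract_ne hirr (3 / 4)
      push_cast at n1 n2
      constructor
      · rintro ⟨ha, hb⟩
        refine ⟨by linarith, lt_of_le_of_ne (by linarith) n2⟩
      · rintro ⟨ha, hb⟩
        refine ⟨by linarith, ?_⟩
        have := lt_of_le_of_ne ha (Ne.symm n1)
        linarith
  simp only [h2]
  exact h1

lemma u₂_not : ¬ Equi u₂ := by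
  intro h
  have h1 := h (3 / 4) 1 (by norm_num) (by norm_num) le_rfl
  have h2 : ∀ N : ℕ, ((Icc 1 N).filter (fun n : ℕ => 3 / 4 ≤ Int.fract (u₂ n) ∧
      Int.fract (u₂ n) < 1)).card = 0 := by
    intro N
    rw [card_eq_zero, filter_eq_empty_iff]
    intro n _ hn
    have h0 := Int.fract_nonneg ((n : ℝ) * √2)
    have h3 := Int.fract_lt_one ((n : ℝ) * √2)
    have hle : 0 ≤ u₂ n ∧ u₂ n ≤ 1 / 2 := by
      unfold u₂
      by_cases h : Int.fract ((n : ℝ) * √2) < 1 / 2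
      · rw [if_pos h]; exact ⟨h0, h.le⟩
      · rw [if_neg h]; push Not at h; constructor <;> linarith
    have hf : Int.fract (u₂ n) = u₂ n := Int.fract_eq_self.2 ⟨hle.1, by linarith [hle.2]⟩
    rw [hf] at hn
    linarith [hn.1, hle.2]
  simp only [h2] at h1
  have h3 : Tendsto (fun N : ℕ => ((0 : ℕ) : ℝ) / (N : ℝ)) atTop (𝓝 0) := by
    simp
  have := tendsto_nhds_unique h1 h3
  norm_num at this

/-- **One-bit criterion for uniform distribution, and the powers of `e` and `π`.** -/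
theorem result :
    -- the criterion
    (∀ u : ℕ → ℝ, Equi u ↔ ∀ k : ℕ, 1 ≤ k → HalfA u k ∧ HalfB u k) ∧
    -- Q1 and Q2
    (Equi (fun n => Real.exp 1 ^ n) ↔
      ∀ k : ℕ, 1 ≤ k → HalfA (fun n => Real.exp 1 ^ n) k ∧ HalfB (fun n => Real.exp 1 ^ n) k) ∧
    (Equi (fun n => Real.pi ^ n) ↔
      ∀ k : ℕ, 1 ≤ k → HalfA (fun n => Real.pi ^ n) k ∧ HalfB (fun n => Real.pi ^ n) k) ∧
    -- uniform finite form
    (∀ ε : ℝ, 0 < ε → ∃ K : ℕ, ∃ δ : ℝ, 0 < δ ∧ ∀ (S : Finset ℕ) (u : ℕ → ℝ),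
      (∀ k : ℕ, 1 ≤ k → k ≤ K →
        |((#{n ∈ S | Int.fract (k * u n) < 1 / 2} : ℕ) : ℝ) - 1 / 2 * #S| ≤ δ * #S ∧
        |((#{n ∈ S | 1 / 4 ≤ Int.fract (k * u n) ∧ Int.fract (k * u n) < 3 / 4} : ℕ) : ℝ) -
          1 / 2 * #S| ≤ δ * #S) →
      ∀ a b : ℝ, 0 ≤ a → a < b → b ≤ 1 →
        |((#{n ∈ S | a ≤ Int.fract (u n) ∧ Int.fract (u n) < b} : ℕ) : ℝ) - (b - a) * #S| ≤
          ε * #S) ∧
    -- neither condition can be omitted
    (∃ u : ℕ → ℝ, (∀ k : ℕ, 1 ≤ k → HalfA u k) ∧ ¬ Equi u) ∧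
    (∃ u : ℕ → ℝ, (∀ k : ℕ, 1 ≤ k → HalfB u k) ∧ ¬ Equi u) := by
  refine ⟨criterion, criterion _, criterion _, ?_, ⟨u₁, u₁_halfA, u₁_not⟩, ⟨u₂, u₂_halfB, u₂_not⟩⟩
  intro ε hε
  obtain ⟨K, δ, hδ, hK⟩ := disc_of_bits ε hε
  exact ⟨K, δ, hδ, fun S u h => hK S u h⟩

end Pool.Agent.Results.MP_9056e9_nt.OneBitWeyl
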